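import Pool.Agent.X150.Frenet

/-!
Lower bound for the length of the Frenet frame of a nondegenerate closed curve in `ℝ^n`, `n ≥ 4`.
-/

namespace Pool.Agent.Results.MP_f07be6_gt.FrameLength

open Pool.Agent.X150.NDDefs

/-- For every `n ≥ 4` and every nondegenerate closed curve in `ℝ^n`, the length of the Frenet frame
exceeds `μ(n)` times the length `2π` of `SO(2)`. -/
theorem result (n : ℕ) (hn : 4 ≤ n) (γ : ℝ → EuclideanSpace ℝ (Fin n)) (hγ : IsSmoothClosed γ)
    (hnd : Nondegenerate γ) : 2 * Real.pi * (mu n : ℝ) < frameLength γ := by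
  rw [Pool.Agent.X150.ND.mu_eq_one n hn, Nat.cast_one, mul_one]
  obtain ⟨N, rfl⟩ : ∃ N, n = N + 4 := ⟨n - 4, by omega⟩
  exact Pool.Agent.X150.Frenet.frame_length_gt hγ hnd

end Pool.Agent.Results.MP_f07be6_gt.FrameLength
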