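import Pool.Agent.X150.NDB

/-!
The least number `μ(n)` of traversals of the plane unit circle such that the multiply traversed
circle has nondegenerate closed perturbations in `ℝ^n`, for `n ≥ 4`.
-/

namespace Pool.Agent.Results.MP_f07be6_gt.MuEqOne

open Pool.Agent.X150.NDDefs

/-- `μ(n) = 1` for every `n ≥ 4`: every `C^∞`-neighbourhood of the plane unit circle traversed once
contains a nondegenerate closed curve in `ℝ^n`. -/
theorem result (n : ℕ) (hn : 4 ≤ n) :
    IsLeast {m : ℕ | 1 ≤ m ∧ CanPerturb n m} 1 ∧ mu n = 1 := by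
  have h := Pool.Agent.X150.ND.mu_eq_one n hn
  obtain ⟨k, rfl⟩ : ∃ k, n = k + 2 := ⟨n - 2, by omega⟩
  exact ⟨⟨⟨le_rfl, Pool.Agent.X150.ND.canPerturb_one k (by omega)⟩, fun m hm => hm.1⟩, h⟩

end Pool.Agent.Results.MP_f07be6_gt.MuEqOne
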